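import Pool.Agent.H24.GS.Stm

set_option autoImplicit false

noncomputable section

namespace Pool.Agent.H31.GS

open Complex Set Filter Topology MeasureTheory Metric
open Pool.Agent.H172R3.SM Pool.Agent.H172R3.SM.Config Pool.Agent.H24.GS
open scoped ContDiff Matrix ComplexConjugate

lemma continuousAt_dbar {f : ℂ → ℂ} {z : ℂ} (hf : ContDiffAt ℝ ∞ f z) :
    ContinuousAt (dbar f) z := by
  have h : ContinuousAt (fderiv ℝ f) z := (hf.fderiv_right (m := 0) (by simp)).continuousAt
  unfold dbar
  exact (h.clm_apply continuousAt_const).add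
    (continuousAt_const.mul (h.clm_apply continuousAt_const))

lemma dbar_conj {f : ℂ → ℂ} {z : ℂ} (hf : DifferentiableAt ℝ f z) :
    dbar (fun z => conj (f z)) z = conj (fderiv ℝ f z 1) + I * conj (fderiv ℝ f z I) := by
  have h : HasFDerivAt (fun z => conj (f z)) ((conjCLE : ℂ →L[ℝ] ℂ).comp (fderiv ℝ f z)) z :=
    (conjCLE : ℂ →L[ℝ] ℂ).hasFDerivAt.comp z hf.hasFDerivAt
  unfold dbar
  rw [h.fderiv]
  simp

lemma closure_eq {G : ℂ → ℂ} {V O : Set ℂ} (hV : IsOpen V) {z : ℂ} (hz : z ∈ V)
    (hc : z ∈ closure O) (hG : ContinuousAt G z) (h : ∀ y ∈ V, y ∈ O → G y = 0) : G z = 0 := by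
  by_contra hne
  have h1 := hG.eventually_ne hne
  have h2 := mem_closure_iff_frequently.1 hc
  obtain ⟨y, hy, hy1, hy2⟩ := (h2.and_eventually (h1.and (hV.mem_nhds hz))).exists
  exact hy1 (h y hy2 hy)

lemma not_closure {O1 O2 : Set ℂ} (hO2 : IsOpen O2) (hd : Disjoint O1 O2) {z : ℂ}
    (hz : z ∈ closure O1) : z ∉ O2 := by
  intro h
  obtain ⟨y, hy, hy2⟩ := ((mem_closure_iff_frequently.1 hz).and_eventually (hO2.mem_nhds h)).exists
  exact Set.disjoint_left.1 hd hy hy2

structure Half (V O1 O2 : Set ℂ) (f α β : ℂ → ℂ) : Prop where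
  hV : IsOpen V
  h1 : IsOpen O1
  h2 : IsOpen O2
  hd : Disjoint O1 O2
  sα : ContDiff ℝ ∞ α
  sβ : ContDiff ℝ ∞ β
  sf : ∀ z ∈ V, ContDiffAt ℝ ∞ f z
  f0 : ∀ z ∈ V, z ∉ O1 → z ∉ O2 → f z = 0
  f1 : ∀ z ∈ V, z ∈ O1 ∨ z ∈ O2 → f z ≠ 0
  e1 : ∀ z ∈ V, z ∈ O1 → dbar f z = α z * f z
  e2 : ∀ z ∈ V, z ∈ O2 → dbar (fun z => conj (f z)) z = β z * conj (f z)

lemma Half.symm {V O1 O2 : Set ℂ} {f α β : ℂ → ℂ} (h : Half V O1 O2 f α β) :
    Half V O2 O1 (fun z => conj (f z)) β α where
  hV := h.hV
  h1 := h.h2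
  h2 := h.h1
  hd := h.hd.symm
  sα := h.sβ
  sβ := h.sα
  sf := fun z hz => (conjCLE : ℂ →L[ℝ] ℂ).contDiff.contDiffAt.comp z (h.sf z hz)
  f0 := fun z hz h1 h2 => by simp [h.f0 z hz h2 h1]
  f1 := fun z hz h1 => by
    have := h.f1 z hz h1.symm
    simpa using this
  e1 := h.e2
  e2 := fun z hz h1 => by
    have := h.e1 z hz h1
    simpa using this

lemma Half.diff {V O1 O2 : Set ℂ} {f α β : ℂ → ℂ} (h : Half V O1 O2 f α β) {z : ℂ}
    (hz : z ∈ V) : DifferentiableAt ℝ (O1.indicator f) z ∧
      dbar (O1.indicator f) z = α z * O1.indicator f z := by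
  classical
  have hdf : DifferentiableAt ℝ f z := (h.sf z hz).differentiableAt (by simp)
  by_cases hc1 : z ∈ closure O1
  · have hdb : dbar f z = α z * f z := by
      have hG : ContinuousAt (fun y => dbar f y - α y * f y) z :=
        (continuousAt_dbar (h.sf z hz)).sub
          (h.sα.continuous.continuousAt.mul (h.sf z hz).continuousAt)
      have := closure_eq h.hV hz hc1 hG fun y hy hy1 => by rw [h.e1 y hy hy1, sub_self]
      exact sub_eq_zero.1 this
    by_cases hc2 : z ∈ closure O2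
    · -- both
      have hz2 : z ∉ O2 := not_closure h.h2 h.hd hc1
      have hz1 : z ∉ O1 := not_closure h.h1 h.hd.symm hc2
      have hf0 : f z = 0 := h.f0 z hz hz1 hz2
      have hdb2 : dbar (fun z => conj (f z)) z = 0 := by
        have hG : ContinuousAt (fun y => dbar (fun z => conj (f z)) y - β y * conj (f y)) z :=
          (continuousAt_dbar (h.symm.sf z hz)).sub
            (h.sβ.continuous.continuousAt.mul (h.symm.sf z hz).continuousAt)
        have := closure_eq h.hV hz hc2 hG fun y hy hy1 => by rw [h.e2 y hy hy1, sub_self]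
        have h3 := sub_eq_zero.1 this
        rw [h3, hf0, map_zero, mul_zero]
      rw [hf0, mul_zero] at hdb
      rw [dbar_conj hdf] at hdb2
      unfold dbar at hdb
      have h3 := congrArg conj hdb2
      simp only [map_add, map_mul, conj_conj, conj_I, map_zero] at h3
      have e1 : fderiv ℝ f z 1 = 0 := by linear_combination (1 / 2 : ℂ) * hdb + (1 / 2 : ℂ) * h3
      have e2 : fderiv ℝ f z I = 0 := by
        have : I * fderiv ℝ f z I = 0 := by
          linear_combination (1 / 2 : ℂ) * hdb - (1 / 2 : ℂ) * h3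
        exact (mul_eq_zero.1 this).resolve_left I_ne_zero
      have e3 : fderiv ℝ f z = 0 := by
        ext v
        have hv : v = v.re • (1 : ℂ) + v.im • I := by
          apply Complex.ext <;> simp
        rw [hv, map_add, map_smul, map_smul, e1, e2]
        simp
      have h4 : HasFDerivAt f (0 : ℂ →L[ℝ] ℂ) z := by rw [← e3]; exact hdf.hasFDerivAt
      have h5 : HasFDerivAt (O1.indicator f) (0 : ℂ →L[ℝ] ℂ) z := by
        rw [hasFDerivAt_iff_isLittleO] at h4 ⊢
        refine (Asymptotics.IsBigO.of_bound 1 (Eventually.of_forall fun y => ?_)).trans_isLittleO h4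
        rw [Set.indicator_of_notMem hz1, hf0]
        simp only [sub_zero, ContinuousLinearMap.zero_apply, one_mul]
        exact norm_indicator_le_norm_self f y
      refine ⟨h5.differentiableAt, ?_⟩
      unfold dbar
      rw [h5.fderiv, Set.indicator_of_notMem hz1]
      simp
    · have hev : O1.indicator f =ᶠ[𝓝 z] f := by
        have hn : ∀ᶠ y in 𝓝 z, y ∈ (closure O2)ᶜ :=
          isClosed_closure.isOpen_compl.mem_nhds hc2
        filter_upwards [hn, h.hV.mem_nhds hz] with y hy hyV
        by_cases hy1 : y ∈ O1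
        · rw [Set.indicator_of_mem hy1]
        · rw [Set.indicator_of_notMem hy1, h.f0 y hyV hy1 fun h2 => hy (subset_closure h2)]
      refine ⟨hdf.congr_of_eventuallyEq hev, ?_⟩
      rw [dbar_congr hev, hdb, hev.eq_of_nhds]
  · have hev : O1.indicator f =ᶠ[𝓝 z] fun _ => 0 := by
      have hn : ∀ᶠ y in 𝓝 z, y ∈ (closure O1)ᶜ :=
        isClosed_closure.isOpen_compl.mem_nhds hc1
      filter_upwards [hn] with y hy
      exact Set.indicator_of_notMem (fun h2 => hy (subset_closure h2)) _
    refine ⟨(differentiableAt_const _).congr_of_eventuallyEq hev, ?_⟩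
    rw [dbar_congr hev, hev.eq_of_nhds]
    unfold dbar
    simp

lemma Half.alt {V O1 O2 : Set ℂ} {f α β : ℂ → ℂ} (h : Half V O1 O2 f α β) {z : ℂ}
    (hz : z ∈ V) : z ∉ closure O1 ∨ ∀ᶠ y in 𝓝[≠] z, y ∈ O1 := by
  obtain ⟨g, hg, hg'⟩ := exists_pot h.sα (‖z‖ + 1)
  set O : Set ℂ := V ∩ ball 0 (‖z‖ + 1) with hO
  have hOo : IsOpen O := h.hV.inter isOpen_ball
  have hzO : z ∈ O := ⟨hz, by rw [mem_ball, dist_zero_right]; linarith⟩
  have hH := holo (α := α) (f := O1.indicator f) (g := g) hOo
    (fun y hy => (h.diff hy.1).1) (fun y hy => (h.diff hy.1).2) hg (fun y hy => hg' y (by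
      have := hy.2
      rwa [mem_ball, dist_zero_right] at this))
  have hA := hH.analyticAt (hOo.mem_nhds hzO)
  rcases hA.eventually_eq_zero_or_eventually_ne_zero with h1 | h1
  · left
    intro hc
    obtain ⟨y, hy, hy1, hy2⟩ := ((mem_closure_iff_frequently.1 hc).and_eventually
      (h1.and (h.hV.mem_nhds hz))).exists
    rcases mul_eq_zero.1 hy1 with h3 | h3
    · exact exp_ne_zero _ h3
    · rw [Set.indicator_of_mem hy] at h3
      exact h.f1 y hy2 (Or.inl hy) h3
  · right
    filter_upwards [h1] with y hy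
    by_contra hy1
    apply hy
    rw [Set.indicator_of_notMem hy1, mul_zero]

lemma Half.main {V O1 O2 : Set ℂ} {f α β : ℂ → ℂ} (h : Half V O1 O2 f α β)
    (hc : ∀ z, z ∉ V → z ∈ O1 ∨ z ∈ O2) : O1 = ∅ ∨ O2 = ∅ := by
  have hdis : ∀ z, z ∈ closure O1 → z ∈ closure O2 → False := by
    intro z h1 h2
    by_cases hz : z ∈ V
    · have a1 := (h.alt hz).resolve_left (not_not.2 h1)
      have a2 := (h.symm.alt hz).resolve_left (not_not.2 h2)
      obtain ⟨y, hy1, hy2⟩ := (a1.and a2).exists
      exact Set.disjoint_left.1 h.hd hy1 hy2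
    · rcases hc z hz with h3 | h3
      · exact not_closure h.h1 h.hd.symm h2 h3
      · exact not_closure h.h2 h.hd h1 h3
  have hopen : IsOpen (closure O1) := by
    rw [isOpen_iff_mem_nhds]
    intro z hz
    by_cases hz1 : z ∈ O1
    · exact Filter.mem_of_superset (h.h1.mem_nhds hz1) subset_closure
    · have hz2 : z ∉ O2 := not_closure h.h2 h.hd hz
      have hzV : z ∈ V := by
        by_contra hV
        rcases hc z hV with h3 | h3
        · exact hz1 h3
        · exact hz2 h3
      have a1 := (h.alt hzV).resolve_left (not_not.2 hz)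
      rw [eventually_nhdsWithin_iff] at a1
      filter_upwards [a1] with y hy
      by_cases hyz : y = z
      · rw [hyz]; exact hz
      · exact subset_closure (hy hyz)
  have hclopen : IsClopen (closure O1) := ⟨isClosed_closure, hopen⟩
  rcases isClopen_iff.1 hclopen with h1 | h1
  · left
    exact closure_empty_iff _ |>.1 h1
  · right
    rw [Set.eq_empty_iff_forall_notMem]
    intro z hz
    exact hdis z (by rw [h1]; trivial) (subset_closure hz)

lemma refl_psi (c : Config) (z : ℂ) : (refl c).psi z = conj (c.psi z) := by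
  unfold psi w Pool.Agent.H24.GS.refl
  simp only [map_div₀, conj_ofReal]
  congr 1

theorem t_ALT (hREF : S_REF) (hDBA : S_DBA) : S_ALT := by
  intro c O1 O2 s s1 s2 hsph ho1 ho2 hd hcov hsd hasd
  obtain ⟨⟨r0, r1, r2⟩, rsph, rsd, -, -⟩ := hREF c s s1 s2
  have hsp : ∀ z, c.phi z 0 ^ 2 + c.phi z 1 ^ 2 + c.phi z 2 ^ 2 = 1 := by
    intro z
    have := hsph z
    simp only [dotProduct, Fin.sum_univ_three] at this
    linarith
  have sc : ∀ i : Fin 3, ContDiff ℝ ∞ (fun z => c.phi z i) := fun i => contDiff_pi.1 s i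
  have sal : ContDiff ℝ ∞ c.al := contDiff_mk s2 s1.neg
  have sal' : ContDiff ℝ ∞ (refl c).al := contDiff_mk r2 r1.neg
  have hpsi : ∀ z, -1 < c.phi z 2 → (c.psi z = 0 ↔ c.phi z 0 = 0 ∧ c.phi z 1 = 0) := by
    intro z hz
    have hne : ((1 + c.phi z 2 : ℝ) : ℂ) ≠ 0 := by
      have : (1 + c.phi z 2 : ℝ) ≠ 0 := by linarith
      exact_mod_cast this
    unfold psi
    rw [div_eq_zero_iff, or_iff_left hne]
    unfold w
    rw [Complex.ext_iff]
    simp
  have hconj : (fun z => conj (c.psi z)) = (refl c).psi := by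
    funext z; rw [refl_psi]
  have H : Half {z | -1 < c.phi z 2} O1 O2 c.psi c.al (refl c).al := by
    refine ⟨isOpen_lt continuous_const (sc 2).continuous, ho1, ho2, hd, sal, sal', ?_, ?_, ?_,
      ?_, ?_⟩
    · intro z hz
      exact contDiffAt_div_real (W := c.w) (ρ := fun z => 1 + c.phi z 2)
        (contDiff_mk (sc 0) (sc 1)) (contDiff_const.add (sc 2)) (by
          have : -1 < c.phi z 2 := hz
          show (1 + c.phi z 2 : ℝ) ≠ 0
          linarith)
    · intro z hz h1 h2
      have h3 : ¬ c.phi z 2 < 1 := fun h => by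
        rcases (hcov z).2 h with h | h
        · exact h1 h
        · exact h2 h
      rw [hpsi z hz]
      have := hsp z
      push Not at h3
      constructor
      · nlinarith [sq_nonneg (c.phi z 0), sq_nonneg (c.phi z 1)]
      · nlinarith [sq_nonneg (c.phi z 0), sq_nonneg (c.phi z 1)]
    · intro z hz h1 h2
      have h3 : c.phi z 2 < 1 := (hcov z).1 h1
      rw [hpsi z hz] at h2
      have := hsp z
      rw [h2.1, h2.2] at this
      have hz' : -1 < c.phi z 2 := hz
      nlinarith
    · intro z hz h1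
      have hz' : -1 < c.phi z 2 := hz
      exact hDBA c z s hsph (hsd z h1) (by linarith)
    · intro z hz h1
      have hz' : -1 < c.phi z 2 := hz
      rw [hconj]
      have h3 : conj (c.psi z) = (refl c).psi z := (refl_psi c z).symm
      rw [h3]
      have h4 := rsd (-1) z (hasd z h1)
      rw [neg_neg] at h4
      refine hDBA (refl c) z r0 (fun z => by rw [rsph]; exact hsph z) h4 ?_
      show 1 + c.phi z 2 ≠ 0
      linarith
  refine H.main fun z hz => ?_
  have h1 : ¬ (-1 < c.phi z 2) := hz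
  exact (hcov z).2 (by linarith)

end Pool.Agent.H31.GS
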